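import Pool.Agent.Work.MP_8f87b2_h13.R3Ed
import Pool.Agent.Work.MP_8f87b2_h68.JVI
import Pool.Agent.Work.MP_8f87b2_h33.InJV
set_option autoImplicit false
set_option linter.all false

/-!
# MP_8f87b2_co: the inner rows JV against the RIGHT windows R3, S3 (`c = 3`), both directions, JV right and mirrored

`Is9.inner_R3`, `Is9.inner_S3`, `Is9M.inner_R3`, `Is9M.inner_S3` (hypothesis `JVr` on the phase),
`TyR3.inner_JV`, `TyS3.inner_JV` (heights only).
-/

namespace Pool.OddHC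
open Finset Equiv BinaryTree Pool.Agent.Work.MP_8f87b2_co
variable {k : ℕ} {F F' : Set (Cyc k)} {g g' : DG k} {R B S Z : BinaryTree Unit}

/-- what the rows JV - R3, JV - S3 need of the phase: only `Z` with a part `3` and exactly one part `2` has a
condition (LOW) -/
structure JVr (Z : BinaryTree Unit) : Prop where
  one : (cont Z).count 1 = 0
  ht3 : 3 ≤ ht Z
  low : (cont Z).count 2 = 1 → 3 ∈ cont Z → ∀ a b, H1.FM Z a b →
    (∀ u, a ≠ u ++ [false, false, true, true]) ∧ ∀ v, b ≠ false :: false :: true :: true :: v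

theorem JVok.r (h : JVok Z) : JVr Z := by
  refine ⟨Multiset.count_eq_zero_of_notMem h.one, h.w.ht3, ?_⟩
  intro _ _ a b hab
  exact h.low a b hab

namespace R3J

open H1 SRun

/-- the words with a run of length one -/
def JN (w : List Bool) : Prop :=
  (∃ u l, SR w u true false l) ∨ (∃ l, SR w [true, true] false true l) ∨
    ∃ u, SR w u false true [false, false]

/-- the inner words `T (Z())`, `T (Z)()` -/
def IN (w : List Bool) : Prop :=
  ∃ u l, SR w u false true l ∧ 3 ≤ u.length ∧ l ≠ [false, false]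

theorem JN.not_D2 {w : List Bool} (h : JN w) : ¬ D2 w := by
  rcases h with ⟨u, l, h⟩ | ⟨l, h⟩ | ⟨u, h⟩
  · exact h.not_D2
  · exact h.not_D2
  · exact h.not_D2

theorem IN.not_D2 {w : List Bool} (h : IN w) : ¬ D2 w := by
  obtain ⟨u, l, h, _, _⟩ := h
  exact h.not_D2

theorem IN.not_JN {w : List Bool} (h : IN w) : ¬ JN w := by
  obtain ⟨u, l, h, h1, h2⟩ := h
  rintro (⟨u', l', h'⟩ | ⟨l', h'⟩ | ⟨u', h'⟩)
  · exact absurd (h.uniq h').2.1 (by simp)
  · have := (h.uniq h').1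
    rw [this] at h1
    simp at h1
  · exact h2 (h.uniq h').2.2.2

/-- the words without a run of length one -/
def D2i (B : BinaryTree Unit) (i : ℕ) : Prop := i = 0 ∨ i = 6 ∨ i = 10 ∨ i = 15 ∨ (i = 16 ∧ B ≠ .nil)

theorem JN.a {w u l u' : List Bool} {z : Bool} (e : w = u ++ true :: false :: l) (h : D2 u)
    (hu : u = u' ++ [z]) (hz : z ≠ true) : JN w :=
  Or.inl ⟨_, _, SR.mk' e h hu hz (by simp)⟩

theorem JN.o {w l : List Bool} (e : w = true :: false :: l) : JN w := Or.inl ⟨_, _, SR.mk0 e⟩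

theorem JN.t {w l : List Bool} (e : w = true :: true :: false :: true :: l) : JN w :=
  Or.inr (Or.inl ⟨l, by rw [e]; rfl, D2.two _ _ D2.nil, by simp, by simp⟩)

theorem g3 {X : BinaryTree Unit} (hX : H1.hg 2 X) :
    Gd ((((BinaryTree.nil : BinaryTree Unit) △ .nil) △ .nil) △ X) :=
  ⟨⟨Or.inr ⟨by simp, Or.inl rfl, trivial⟩, hX⟩, by simp⟩

theorem g2 : H1.hg 2 (((BinaryTree.nil : BinaryTree Unit) △ .nil) △ .nil) := hg_one trivial

/-- **the right words** -/
theorem JN_W (hR : Gd R) (hB : B = .nil ∨ Gd B) (hS : Gd S) {i : ℕ} (hi : i < 20) :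
    (D2i B i ∧ D2 (wd (W R (.nil △ .nil) B S i))) ∨ JN (wd (W R (.nil △ .nil) B S i)) := by
  obtain ⟨vR, hvR⟩ := hR.start
  obtain ⟨zR, hzR⟩ := hR.stop
  obtain ⟨vS, hvS⟩ := hS.start
  obtain ⟨zS, hzS⟩ := hS.stop
  have hB2 : H1.hg 2 B := by
    rcases hB with rfl | h
    · trivial
    · exact h.hg
  interval_cases i
  · exact Or.inl ⟨Or.inl rfl, (hR.app (g3 (X := .nil) trivial).hg).d2⟩
  · refine Or.inr (JN.a (u := wd R) (l := [true, false, true, false]) ?_ hR.d2 hzR (by simp))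
    change wd (app R (.nil △ (.nil △ (.nil △ .nil)))) = _
    rw [wd_app]; rfl
  · exact Or.inr (JN.o rfl)
  · refine Or.inr (JN.a (u := true :: wd R) (l := [true, false, false]) (u' := true :: (zR ++ [false]))
      (z := false) ?_ hR.cons (by rw [hzR]; simp) (by simp))
    change wd (app R (.nil △ (.nil △ .nil)) △ .nil) = _
    rw [wd_node, wd_app]
    simp [wd]
  · exact Or.inr (JN.t rfl)
  · exact Or.inr (JN.a (u := [true, true, false, false]) (l := wd R) (u' := [true, true, false])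
      (z := false) rfl (D2.two _ _ (D2.two _ _ D2.nil)) rfl (by simp))
  · exact Or.inl ⟨Or.inr (Or.inl rfl), (hR.node g2).d2⟩
  · exact Or.inr (JN.o rfl)
  · exact Or.inr (JN.o rfl)
  · have h2 : Gd ((R △ .nil) △ .nil) := (hR.node (C := .nil) trivial).node (C := .nil) trivial
    obtain ⟨z, hz⟩ := h2.stop
    refine Or.inr (JN.a (u := wd ((R △ .nil) △ .nil)) (l := []) ?_ h2.d2 hz (by simp))
    change wd ((R △ .nil) △ (.nil △ .nil)) = _
    rw [wd_node, wd_node, wd_node, wd_node]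
    simp [wd]
  · exact Or.inl ⟨Or.inr (Or.inr (Or.inl rfl)), (Gd.appr hB2 (g3 hS.hg)).d2⟩
  · right
    rcases hB with rfl | h
    · exact JN.o rfl
    · obtain ⟨v, hv⟩ := h.stop
      refine JN.a (u := wd B) (l := true :: false :: true :: false :: wd S) ?_ h.d2 hv (by simp)
      change wd (app B (.nil △ (.nil △ (.nil △ S)))) = _
      rw [wd_app]; rfl
  · have h3 : Gd (S △ B) := hS.node hB2
    obtain ⟨v1, hv1⟩ := h3.stop
    refine Or.inr (JN.a (u := wd (S △ B)) (l := [true, false]) ?_ h3.d2 hv1 (by simp))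
    change wd (S △ app B (.nil △ (.nil △ .nil))) = _
    rw [wd_node, wd_node, wd_app]
    simp [wd]
  · right
    rcases hB with rfl | h
    · refine Or.inr (Or.inr ⟨wd S ++ [true, true], SR.mk' (u' := wd S ++ [true]) (z := true) ?_
        (hS.d2.app (D2.two _ _ D2.nil)) (by simp) (by simp) (by simp)⟩)
      change wd (app S ((.nil △ (.nil △ .nil)) △ .nil)) = _
      rw [wd_app]
      simp [wd, wd_node]
    · obtain ⟨v, hv⟩ := h.stop
      refine JN.a (u := wd S ++ (true :: wd B)) (l := [true, false, false])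
        (u' := wd S ++ (true :: (v ++ [false]))) (z := false) ?_ (hS.d2.app h.cons)
        (by rw [hv]; simp) (by simp)
      change wd (app S (app B (.nil △ (.nil △ .nil)) △ .nil)) = _
      rw [wd_app, wd_node, wd_app]
      simp [wd]
  · exact Or.inr (JN.t rfl)
  · exact Or.inl ⟨Or.inr (Or.inr (Or.inr (Or.inl rfl))), (Gd.oneR (hS.node hB2).hg).d2⟩
  · rcases hB with rfl | h
    · refine Or.inr (JN.a (u := wd S) (l := [true, true, false, false]) ?_ hS.d2 hzS (by simp))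
      change wd (app S (.nil △ ((.nil △ .nil) △ .nil))) = _
      rw [wd_app]; rfl
    · exact Or.inl ⟨Or.inr (Or.inr (Or.inr (Or.inr ⟨rfl, h.ne⟩))), (hS.app (h.node g2).hg).d2⟩
  · exact Or.inr (JN.o rfl)
  · exact Or.inr (JN.o rfl)
  · right
    rcases hB with rfl | h
    · refine JN.a (u := true :: wd S) (u' := true :: (zS ++ [false])) (z := false)
        (l := [false, true, false]) ?_ hS.cons (by rw [hzS]; simp) (by simp)
      change wd (app S (.nil △ .nil) △ (.nil △ .nil)) = _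
      rw [wd_node, wd_app]
      simp [wd]
    · have h2 : Gd (app S (B △ .nil) △ .nil) :=
        (hS.app (h.node (C := .nil) trivial).hg).node (C := .nil) trivial
      obtain ⟨z, hz⟩ := h2.stop
      refine JN.a (u := wd (app S (B △ .nil) △ .nil)) (l := []) ?_ h2.d2 hz (by simp)
      change wd (app S (B △ .nil) △ (.nil △ .nil)) = _
      rw [wd_node, wd_node]
      simp [wd]

/-- **the mirrored words** -/
theorem JN_mW (hR : Gd (Tsq.mir R)) (hB : (B = .nil ∧ Tsq.mir B = .nil) ∨ (B ≠ .nil ∧ Gd (Tsq.mir B)))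
    (hS : Gd (Tsq.mir S)) {i : ℕ} (hi : i < 20) :
    (D2i B i ∧ D2 (wd (Tsq.mir (W R (.nil △ .nil) B S i)))) ∨
      JN (wd (Tsq.mir (W R (.nil △ .nil) B S i))) := by
  have h0 : Tsq.mir BinaryTree.nil = BinaryTree.nil := rfl
  obtain ⟨vR, hvR⟩ := hR.start
  obtain ⟨zR, hzR⟩ := hR.stop
  obtain ⟨vS, hvS⟩ := hS.start
  obtain ⟨zS, hzS⟩ := hS.stop
  have hB2 : H1.hg 2 (Tsq.mir B) := by
    rcases hB with ⟨_, h⟩ | h
    · rw [h]; trivial
    · exact h.2.hg
  have sim : ∀ t, Tsq.mir (W R (.nil △ .nil) B S i) = t → JN (wd t) →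
      (D2i B i ∧ D2 (wd (Tsq.mir (W R (.nil △ .nil) B S i)))) ∨
        JN (wd (Tsq.mir (W R (.nil △ .nil) B S i))) := fun t e h => Or.inr (by rw [e]; exact h)
  have sim2 : ∀ t, Tsq.mir (W R (.nil △ .nil) B S i) = t → D2i B i → Gd t →
      (D2i B i ∧ D2 (wd (Tsq.mir (W R (.nil △ .nil) B S i)))) ∨
        JN (wd (Tsq.mir (W R (.nil △ .nil) B S i))) := fun t e h1 h => Or.inl ⟨h1, by rw [e]; exact h.d2⟩
  interval_cases i
  · refine sim2 ((((.nil △ .nil) △ .nil)) △ Tsq.mir R) (by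
      simp only [W, Tsq.mir_node, Tsq.mir_app, h0, app, app_nil', app_assoc']) (Or.inl rfl) (g3 hR.hg)
  · refine sim (.nil △ (.nil △ (.nil △ Tsq.mir R))) (by
      simp only [W, Tsq.mir_node, Tsq.mir_app, h0, app, app_nil', app_assoc']) (JN.o rfl)
  · refine sim (.nil △ (.nil △ app (Tsq.mir R) (.nil △ .nil))) (by
      simp only [W, Tsq.mir_node, Tsq.mir_app, h0, app, app_nil', app_assoc']) (JN.o rfl)
  · refine sim ((.nil △ (.nil △ Tsq.mir R)) △ .nil) (by
      simp only [W, Tsq.mir_node, Tsq.mir_app, h0, app, app_nil', app_assoc']) (JN.t rfl)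
  · refine sim (app (Tsq.mir R) ((.nil △ (.nil △ .nil)) △ .nil)) (by
      simp only [W, Tsq.mir_node, Tsq.mir_app, h0, app, app_nil', app_assoc']) ?_
    refine Or.inr (Or.inr ⟨wd (Tsq.mir R) ++ [true, true], SR.mk' (u' := wd (Tsq.mir R) ++ [true])
      (z := true) ?_ (hR.d2.app (D2.two _ _ D2.nil)) (by simp) (by simp) (by simp)⟩)
    rw [wd_app]
    simp [wd, wd_node]
  · refine sim (app (Tsq.mir R) (.nil △ ((.nil △ .nil) △ .nil))) (by
      simp only [W, Tsq.mir_node, Tsq.mir_app, h0, app, app_nil', app_assoc']) ?_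
    refine JN.a (u := wd (Tsq.mir R)) (l := [true, true, false, false]) ?_ hR.d2 hzR (by simp)
    rw [wd_app]; rfl
  · refine sim2 ((.nil △ .nil) △ (Tsq.mir R △ .nil)) (by
      simp only [W, Tsq.mir_node, Tsq.mir_app, h0, app, app_nil', app_assoc']) (Or.inr (Or.inl rfl))
      (Gd.oneR (hR.node (C := .nil) trivial).hg)
  · refine sim (app (Tsq.mir R) (.nil △ .nil) △ (.nil △ .nil)) (by
      simp only [W, Tsq.mir_node, Tsq.mir_app, h0, app, app_nil', app_assoc']) ?_
    refine JN.a (u := true :: wd (Tsq.mir R)) (u' := true :: (zR ++ [false])) (z := false)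
      (l := [false, true, false]) ?_ hR.cons (by rw [hzR]; simp) (by simp)
    rw [wd_node, wd_app]
    simp [wd]
  · refine sim (Tsq.mir R △ (.nil △ (.nil △ .nil))) (by
      simp only [W, Tsq.mir_node, Tsq.mir_app, h0, app, app_nil', app_assoc']) ?_
    have h2 : Gd (Tsq.mir R △ .nil) := hR.node (C := .nil) trivial
    obtain ⟨z, hz⟩ := h2.stop
    refine JN.a (u := wd (Tsq.mir R △ .nil)) (l := [true, false]) ?_ h2.d2 hz (by simp)
    rw [wd_node, wd_node]
    simp [wd]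
  · refine sim (.nil △ ((Tsq.mir R △ .nil) △ .nil)) (by
      simp only [W, Tsq.mir_node, Tsq.mir_app, h0, app, app_nil', app_assoc']) (JN.o rfl)
  · refine sim2 (app (Tsq.mir S) ((((.nil △ .nil) △ .nil)) △ Tsq.mir B)) (by
      simp only [W, Tsq.mir_node, Tsq.mir_app, h0, app, app_nil', app_assoc'])
      (Or.inr (Or.inr (Or.inl rfl))) (hS.app (g3 hB2).hg)
  · refine sim (app (Tsq.mir S) (.nil △ (.nil △ (.nil △ Tsq.mir B)))) (by
      simp only [W, Tsq.mir_node, Tsq.mir_app, h0, app, app_nil', app_assoc']) ?_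
    refine JN.a (u := wd (Tsq.mir S)) (l := true :: false :: true :: false :: wd (Tsq.mir B)) ?_ hS.d2
      hzS (by simp)
    rw [wd_app]; rfl
  · refine sim (.nil △ (.nil △ app (Tsq.mir B) (Tsq.mir S △ .nil))) (by
      simp only [W, Tsq.mir_node, Tsq.mir_app, h0, app, app_nil', app_assoc']) (JN.o rfl)
  · refine sim ((.nil △ (.nil △ Tsq.mir B)) △ Tsq.mir S) (by
      simp only [W, Tsq.mir_node, Tsq.mir_app, h0, app, app_nil', app_assoc']) (JN.t rfl)
  · refine sim (app (Tsq.mir B) (app (Tsq.mir S) (.nil △ (.nil △ .nil)) △ .nil)) (by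
      simp only [W, Tsq.mir_node, Tsq.mir_app, h0, app, app_nil', app_assoc']) ?_
    refine JN.a (u := wd (Tsq.mir B) ++ (true :: wd (Tsq.mir S))) (l := [true, false, false])
      (u' := wd (Tsq.mir B) ++ (true :: (zS ++ [false]))) (z := false) ?_ ((D2_hg hB2).app hS.cons)
      (by rw [hzS]; simp) (by simp)
    rw [wd_app, wd_node, wd_app]
    simp [wd]
  · refine sim2 (app (Tsq.mir B) (Tsq.mir S △ ((.nil △ .nil) △ .nil))) (by
      simp only [W, Tsq.mir_node, Tsq.mir_app, h0, app, app_nil', app_assoc'])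
      (Or.inr (Or.inr (Or.inr (Or.inl rfl)))) (Gd.appr hB2 (hS.node g2))
  · rcases hB with ⟨h1, h⟩ | ⟨h1, h⟩
    · refine sim ((.nil △ .nil) △ (.nil △ Tsq.mir S)) (by
        simp only [W, Tsq.mir_node, Tsq.mir_app, h0, app, app_nil', app_assoc', h1]) ?_
      exact JN.a (u := [true, true, false, false]) (l := wd (Tsq.mir S)) (u' := [true, true, false])
        (z := false) rfl (D2.two _ _ (D2.two _ _ D2.nil)) rfl (by simp)
    · refine sim2 ((.nil △ .nil) △ (Tsq.mir B △ Tsq.mir S)) (by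
        simp only [W, Tsq.mir_node, Tsq.mir_app, h0, app, app_nil', app_assoc'])
        (Or.inr (Or.inr (Or.inr (Or.inr ⟨rfl, h1⟩)))) (Gd.oneR (h.node hS.hg).hg)
  · refine sim (app (Tsq.mir B) (Tsq.mir S △ .nil) △ (.nil △ .nil)) (by
      simp only [W, Tsq.mir_node, Tsq.mir_app, h0, app, app_nil', app_assoc']) ?_
    have h2 : Gd (app (Tsq.mir B) (Tsq.mir S △ .nil) △ .nil) :=
      (Gd.appr hB2 (hS.node (C := .nil) trivial)).node (C := .nil) trivial
    obtain ⟨z, hz⟩ := h2.stop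
    refine JN.a (u := wd (app (Tsq.mir B) (Tsq.mir S △ .nil) △ .nil)) (l := []) ?_ h2.d2 hz (by simp)
    rw [wd_node, wd_node]
    simp [wd]
  · refine sim (Tsq.mir B △ app (Tsq.mir S) (.nil △ (.nil △ .nil))) (by
      simp only [W, Tsq.mir_node, Tsq.mir_app, h0, app, app_nil', app_assoc']) ?_
    rcases hB with ⟨h1, h⟩ | ⟨h1, h⟩
    · rw [h]
      exact JN.o rfl
    · have h2 : Gd (Tsq.mir B △ Tsq.mir S) := h.node hS.hg
      obtain ⟨z, hz⟩ := h2.stop
      refine JN.a (u := wd (Tsq.mir B △ Tsq.mir S)) (l := [true, false]) ?_ h2.d2 hz (by simp)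
      rw [wd_node, wd_node, wd_app]
      simp [wd]
  · refine sim (.nil △ ((Tsq.mir B △ Tsq.mir S) △ .nil)) (by
      simp only [W, Tsq.mir_node, Tsq.mir_app, h0, app, app_nil', app_assoc']) (JN.o rfl)

/-! ### The contents of the words without a run of length one -/

/-- starts with `1100` or ends with `1100` -/
def E4 (w : List Bool) : Prop :=
  (∃ v, w = v ++ [true, true, false, false]) ∨ ∃ v, w = true :: true :: false :: false :: v

theorem E4.mir {t : BinaryTree Unit} (h : E4 (wd t)) : E4 (wd (Tsq.mir t)) := by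
  rcases h with ⟨v, hv⟩ | ⟨v, hv⟩
  · right
    refine ⟨(v.map not).reverse, ?_⟩
    rw [Tsq.wd_mir, hv]
    simp
  · left
    refine ⟨(v.map not).reverse, ?_⟩
    rw [Tsq.wd_mir, hv]
    simp

theorem raise_ge {M : Multiset ℕ} (h : ∀ x ∈ M, 3 ≤ x) (h0 : M ≠ 0) : ∀ x ∈ raise M, 3 ≤ x := by
  intro x hx
  rcases raise_mem hx with e | e
  · have := h _ (sup_mem h0)
    omega
  · exact h x e

theorem count2 {M : Multiset ℕ} (h : ∀ x ∈ M, 3 ≤ x) : M.count 2 = 0 := by
  rw [Multiset.count_eq_zero]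
  intro h1
  have := h 2 h1
  omega

theorem cont2 : cont (((BinaryTree.nil : BinaryTree Unit) △ .nil) △ .nil) = {2} := by
  rw [cont_node, cont_node, cont_nil, raise_zero, add_zero, add_zero]
  rfl

theorem cont1 : cont ((BinaryTree.nil : BinaryTree Unit) △ .nil) = {1} := by
  rw [cont_node, cont_nil, raise_zero, add_zero]

theorem hit (h : HM.NodeM k 0 R B S) (hc : ClR B S) {i : ℕ} (hd : D2i B i) :
    (i = 0 ∨ i = 10) ∨ ((cont (W R (.nil △ .nil) B S i)).count 2 = 1 ∧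
      3 ∈ cont (W R (.nil △ .nil) B S i) ∧ E4 (wd (W R (.nil △ .nil) B S i))) := by
  have hR : ∀ x ∈ cont R, 3 ≤ x := fun x hx => by
    have := h.part x hx
    omega
  have hB : ∀ x ∈ cont B, 3 ≤ x := fun x hx => hR x (by
    rw [← h.eq]
    exact Multiset.mem_add.2 (Or.inl hx))
  have hS : ∀ x ∈ cont S, 3 ≤ x := fun x hx => hR x (by
    rw [← h.eq]
    exact Multiset.mem_add.2 (Or.inr hx))
  have htop := h.top
  have htS : ht S = ht R := h.dat.htS
  have sR : (cont R).sup = ht R := (OddHC.ht_eq R).symm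
  have sS : (cont S).sup = ht S := (OddHC.ht_eq S).symm
  have nR : cont R ≠ 0 := by
    intro e
    rw [e] at sR
    simp at sR
    omega
  have nS : cont S ≠ 0 := by
    intro e
    rw [e] at sS
    simp at sS
    omega
  have m0 : 3 ∈ cont R := h.mem
  have mBS : 3 ∈ cont B ∨ 3 ∈ cont S := by
    have := m0
    rw [← h.eq, Multiset.mem_add] at this
    exact this
  have c3 : ∀ x ∈ ({3} : Multiset ℕ), 3 ≤ x := by
    intro x hx
    rw [Multiset.mem_singleton] at hx
    omega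
  have r2 : raise ({2} : Multiset ℕ) = {3} := raise_single 2
  have r1 : raise ({1} : Multiset ℕ) = {2} := raise_single 1
  rcases hd with rfl | rfl | rfl | rfl | ⟨rfl, hB0⟩
  · exact Or.inl (Or.inl rfl)
  · right
    have e : cont (W R (.nil △ .nil) B S 6) = raise (cont R) + {2} := by
      change cont (R △ ((.nil △ .nil) △ .nil)) = _
      rw [cont_node, cont2]
    refine ⟨?_, ?_, Or.inl ⟨wd (R △ .nil), ?_⟩⟩
    · rw [e, Multiset.count_add, count2 (raise_ge hR nR)]
      simp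
    · rw [e]
      exact Multiset.mem_add.2 (Or.inl (mem_raise m0 (by omega)))
    · change wd (R △ ((.nil △ .nil) △ .nil)) = _
      rw [wd_node, wd_node R]
      simp [wd, wd_node]
  · exact Or.inl (Or.inr rfl)
  · right
    have e : cont (W R (.nil △ .nil) B S 15) = {2} + (raise (cont S) + cont B) := by
      change cont ((.nil △ .nil) △ (S △ B)) = _
      rw [cont_node (.nil △ .nil), cont_node S B, cont1, r1]
    refine ⟨?_, ?_, Or.inr ⟨wd (S △ B), ?_⟩⟩
    · rw [e, Multiset.count_add, Multiset.count_add, count2 (raise_ge hS nS), count2 hB]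
      simp
    · rw [e]
      refine Multiset.mem_add.2 (Or.inr (Multiset.mem_add.2 ?_))
      rcases mBS with h1 | h1
      · exact Or.inr h1
      · exact Or.inl (mem_raise h1 (by omega))
    · change wd ((.nil △ .nil) △ (S △ B)) = _
      rw [wd_node]
      simp [wd, wd_node]
  · right
    have nB : cont B ≠ 0 := fun e => hB0 (cont_eq_zero.1 e)
    have e : cont (W R (.nil △ .nil) B S 16) = cont S + (raise (cont B) + {2}) := by
      change cont (app S (B △ ((.nil △ .nil) △ .nil))) = _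
      rw [cont_app, cont_node, cont2]
    refine ⟨?_, ?_, Or.inl ⟨wd (app S (B △ .nil)), ?_⟩⟩
    · rw [e, Multiset.count_add, Multiset.count_add, count2 (raise_ge hB nB), count2 hS]
      simp
    · rw [e]
      refine Multiset.mem_add.2 ?_
      rcases hc.mem3 h.a0d3 with h1 | h1
      · exact Or.inl h1
      · exact Or.inr (Multiset.mem_add.2 (Or.inl h1))
    · change wd (app S (B △ ((.nil △ .nil) △ .nil))) = _
      rw [wd_app, wd_app, wd_node, wd_node B]
      simp [wd, wd_node]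

/-! ### The inner words of JV -/

theorem in4 (h : Gd Z) (h3 : 3 ≤ Tsq.ht Z) {x : X k} (e : x.1 = app Z (.nil △ .nil) △ .nil) :
    IN (wd (TT x).1) := by
  obtain ⟨a, b, fm, hb, ⟨β, hβ⟩, hl, y, l, hy⟩ := h.fm h3
  have hn : Tsq.ht (.nil : BinaryTree Unit) = 0 := rfl
  have k1 := (fm.app_right (Z := .nil △ .nil) (by
    rw [Tsq.ht_node, hn]; omega)).node (Z := .nil) (by rw [hn]; omega)
  rw [← e] at k1
  refine ⟨b.map not, true :: false :: false :: a.map not, SR.mk' ?_ hb hβ (by simp)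
    (by simp), hl, by simp⟩
  rw [k1.wdT]
  simp [wd]

theorem in5 (h : Gd Z) (h3 : 3 ≤ Tsq.ht Z) {x : X k} (e : x.1 = Z △ (.nil △ .nil)) :
    IN (wd (TT x).1) := by
  obtain ⟨a, b, fm, hb, ⟨β, hβ⟩, hl, y, l, hy⟩ := h.fm h3
  have hn : Tsq.ht (.nil : BinaryTree Unit) = 0 := rfl
  have k1 := fm.node (Z := .nil △ .nil) (by rw [Tsq.ht_node, hn]; omega)
  rw [← e] at k1
  refine ⟨b.map not ++ [true], false :: false :: a.map not, SR.mk' ?_ (hb.snoc hβ) rfl
    (by simp) (by simp), by simp; simp at hl; omega, by rw [hy]; simp⟩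
  rw [k1.wdT]
  simp [wd]

theorem tail4 {P a X : List Bool} (e : P ++ (true :: true :: false :: false :: false :: a) =
    X ++ [true, true, false, false]) : ∃ v, a = v ++ [true, true, false, false] := by
  have e1 := congrArg List.reverse e
  simp only [List.reverse_append, List.reverse_cons, List.reverse_nil, List.nil_append,
    List.append_assoc, List.cons_append, List.singleton_append] at e1
  rcases h : a.reverse with _ | ⟨x, _ | ⟨y, _ | ⟨z, _ | ⟨w, r⟩⟩⟩⟩
  · rw [h] at e1; simp at e1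
  · rw [h] at e1; simp at e1
  · rw [h] at e1; simp at e1
  · rw [h] at e1; simp at e1
  · rw [h] at e1
    simp only [List.cons_append, List.cons.injEq] at e1
    obtain ⟨rfl, rfl, rfl, rfl, _⟩ := e1
    refine ⟨r.reverse, ?_⟩
    have := congrArg List.reverse h
    simpa using this

theorem head4 {b Q Y : List Bool} (e : b ++ (true :: true :: Q) =
    true :: true :: false :: false :: Y) (hl : 3 ≤ b.length) :
    ∃ v, b = true :: true :: false :: false :: v := by
  rcases b with _ | ⟨x, _ | ⟨y, _ | ⟨z, _ | ⟨w, r⟩⟩⟩⟩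
  · simp at hl
  · simp at hl
  · simp at hl
  · simp at e
  · simp only [List.cons_append, List.cons.injEq] at e
    obtain ⟨rfl, rfl, rfl, rfl, _⟩ := e
    exact ⟨r, rfl⟩

theorem mnn' (l : List Bool) : (l.map not).map not = l := by
  rw [List.map_map]
  have : (not ∘ not) = id := by funext x; cases x <;> rfl
  rw [this, List.map_id]

theorem JVr.ne (hz : JVr Z) : Z ≠ .nil := by
  rintro rfl
  have := hz.ht3
  revert this
  decide

theorem not3 (hz : JVr Z) {x : X k} (e : x.1 = (Z △ .nil) △ .nil)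
    (hc : (cont (TT x).1).count 2 = 1 ∧ 3 ∈ cont (TT x).1 ∧ E4 (wd (TT x).1)) : False := by
  have hcz : cont (TT x).1 = raise (raise (cont Z)) := by rw [cont_TT, cont_three e]
  have hsup : (cont Z).sup = ht Z := (OddHC.ht_eq Z).symm
  have h3 := hz.ht3
  have c2 : (cont (TT x).1).count 2 = (cont Z).count 2 := by rw [hcz, count_raise2 (by omega)]
  obtain ⟨h1, h2, h4⟩ := hc
  · have z3 : 3 ∈ cont Z := by
      rw [hcz] at h2
      rcases raise_mem h2 with h5 | h5
      · rw [sup_raise] at h5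
        omega
      · rcases raise_mem h5 with h6 | h6
        · omega
        · exact h6
    obtain ⟨a, b, fm, hb, hβ, hl, _⟩ := (Gd_of (JVr.ne hz) hz.one).1.fm (by rw [H1.ht_eq]; exact h3)
    obtain ⟨l1, l2⟩ := hz.low (by omega) z3 a b fm
    have e2 := wdT_three e fm
    rcases h4 with ⟨v, hv⟩ | ⟨v, hv⟩
    · rw [hv] at e2
      obtain ⟨u, hu⟩ := tail4 e2.symm
      apply l1 (u.map not)
      have h5 := congrArg (List.map not) hu
      rw [mnn'] at h5
      rw [h5]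
      simp
    · rw [hv] at e2
      obtain ⟨u, hu⟩ := head4 e2.symm hl
      apply l2 (u.map not)
      have h5 := congrArg (List.map not) hu
      rw [mnn'] at h5
      rw [h5]
      simp

/-- **of the three inner words of a right pair JV only `T ((Z))` can be a word of R3, right or mirrored, the word 0 or
10** -/
theorem core (hz : JVr Z) {u : ℕ → X k} (h2 : D9 .nil .nil Z u) {v : X k}
    (hv : v = TT (u 3) ∨ v = TT (u 4) ∨ v = TT (u 5)) (h1 : HM.NodeM k 0 R B S) (hc : ClR B S) {i : ℕ}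
    (hi : i < 20) (e : v.1 = W R (.nil △ .nil) B S i ∨ v.1 = Tsq.mir (W R (.nil △ .nil) B S i)) :
    v = TT (u 3) ∧ (i = 0 ∨ i = 10) := by
  have hR : ∀ x ∈ cont R, 3 ≤ x := fun x hx => by
    have := h1.part x hx
    omega
  have cR : (cont R).count 1 = 0 := by
    rw [Multiset.count_eq_zero]
    intro hx
    have := hR 1 hx
    omega
  have cBS : (cont B).count 1 + (cont S).count 1 = 0 := by
    rw [← Multiset.count_add, h1.eq, cR]
  have htop := h1.top
  have htS : ht S = ht R := h1.dat.htS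
  have nS : S ≠ .nil := by
    rintro rfl
    have h0 : ht (BinaryTree.nil : BinaryTree Unit) = 0 := rfl
    omega
  have gR := Gd_of h1.ne cR
  have gS := Gd_of nS (by omega)
  have gZ := Gd_of (JVr.ne hz) hz.one
  have h3 : 3 ≤ Tsq.ht Z := by rw [H1.ht_eq]; exact hz.ht3
  have sh : (D2i B i ∧ D2 (wd v.1)) ∨ JN (wd v.1) := by
    by_cases hB : B = .nil
    · rcases e with e | e
      · rw [e]; exact JN_W gR.1 (Or.inl hB) gS.1 hi
      · rw [e]; exact JN_mW gR.2 (Or.inl ⟨hB, by rw [hB]; rfl⟩) gS.2 hi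
    · have gB := Gd_of hB (by omega)
      rcases e with e | e
      · rw [e]; exact JN_W gR.1 (Or.inr gB.1) gS.1 hi
      · rw [e]; exact JN_mW gR.2 (Or.inr ⟨hB, gB.2⟩) gS.2 hi
  have e3 : (u 3).1 = (Z △ .nil) △ .nil := h2.word 3 (by norm_num)
  have e4 : (u 4).1 = (app Z (.nil △ .nil)) △ .nil := h2.word 4 (by norm_num)
  have e5 : (u 5).1 = Z △ (.nil △ .nil) := h2.word 5 (by norm_num)
  rcases hv with rfl | rfl | rfl
  · have d := inner_D2 (B := .nil) (S := .nil) gZ.1 h3 9 (by simp) e3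
    rcases sh with ⟨hd, _⟩ | sh
    · refine ⟨rfl, ?_⟩
      rcases hit h1 hc hd with h4 | ⟨h4, h5, h6⟩
      · exact h4
      · exfalso
        refine not3 hz e3 ?_
        rcases e with e | e
        · rw [e]
          exact ⟨h4, h5, h6⟩
        · rw [e, HM.cont_mir]
          exact ⟨h4, h5, h6.mir⟩
    · exact absurd d sh.not_D2
  · have d := in4 gZ.1 h3 e4
    rcases sh with ⟨_, h4⟩ | sh
    · exact absurd h4 d.not_D2
    · exact absurd sh d.not_JN
  · have d := in5 gZ.1 h3 e5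
    rcases sh with ⟨_, h4⟩ | sh
    · exact absurd h4 d.not_D2
    · exact absurd sh d.not_JN

theorem inn9 {u : ℕ → X k} {p : X k × X k} (hp : p ∈ (gad9 u).arcs) {v : X k} (hv : v ∈ innA p) :
    v = TT (u 3) ∨ v = TT (u 4) ∨ v = TT (u 5) := by
  have hp' : p = (u 3, u 6) ∨ p = (u 4, u 7) ∨ p = (u 5, u 8) := hp
  have hv' : v = TT p.1 := hv
  rcases hp' with rfl | rfl | rfl
  · exact Or.inl hv'
  · exact Or.inr (Or.inl hv')
  · exact Or.inr (Or.inr hv')

theorem core9 (hz : JVr Z) (h : Is9 .nil .nil Z F g) (h1 : HM.NodeM k 0 R B S) (hc : ClR B S) {i : ℕ}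
    (hi : i < 20) (w0 : X k) : ∀ p ∈ g.arcs, ∀ v ∈ innA p, v = wX R B S 0 w0 i →
      (i = 0 ∨ i = 10) ∧ ∃ x : X k, x.1 = (Z △ .nil) △ .nil ∧ v = TT x := by
  obtain ⟨u, h2, rfl, rfl⟩ := h
  intro p hp v hv e
  obtain ⟨e1, e2⟩ := core hz h2 (inn9 hp hv) h1 hc hi (Or.inl (by rw [e]; exact wX_eq h1.dat h1.size w0 hi))
  exact ⟨e2, u 3, h2.word 3 (by norm_num), e1⟩

theorem core9M (hz : JVr (Tsq.mir Z)) (h : Is9M .nil .nil Z F g) (h1 : HM.NodeM k 0 R B S)
    (hc : ClR B S) {i : ℕ} (hi : i < 20) (w0 : X k) :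
    ∀ p ∈ g.arcs, ∀ v ∈ innA p, v = wX R B S 0 w0 i →
      (i = 0 ∨ i = 10) ∧ ∃ x : X k, x.1 = (Z △ .nil) △ .nil ∧ TT v = x := by
  obtain ⟨u, h2, rfl, rfl⟩ := h
  obtain ⟨i6, i7, i8⟩ := h2.inner
  intro p hp v hv e
  have hp' : p = (u 6, u 3) ∨ p = (u 7, u 4) ∨ p = (u 8, u 5) := hp
  have hv' : v = TT p.1 := hv
  have hm : Tsq.mirX v = TT (Tsq.mirX (u 3)) ∨ Tsq.mirX v = TT (Tsq.mirX (u 4)) ∨
      Tsq.mirX v = TT (Tsq.mirX (u 5)) := by
    rcases hp' with rfl | rfl | rfl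
    · left; rw [hv']; change Tsq.mirX (TT (u 6)) = _; rw [i6, mirX_mirX]
    · right; left; rw [hv']; change Tsq.mirX (TT (u 7)) = _; rw [i7, mirX_mirX]
    · right; right; rw [hv']; change Tsq.mirX (TT (u 8)) = _; rw [i8, mirX_mirX]
  obtain ⟨e1, e2⟩ := core hz (u := fun i => Tsq.mirX (u i)) h2.mir hm h1 hc hi (Or.inr (by
    change Tsq.mir v.1 = _
    rw [e, wX_eq h1.dat h1.size w0 hi]
    rfl))
  refine ⟨e2, u 3, ?_, ?_⟩
  · have h5 : Tsq.mir (u 3).1 = (Tsq.mir Z △ .nil) △ .nil := h2.mir.word 3 (by norm_num)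
    have h6 := congrArg Tsq.mir h5
    rw [Tsq.mir_mir] at h6
    have h0 : Tsq.mir BinaryTree.nil = BinaryTree.nil := rfl
    rw [h6]
    simp only [Tsq.mir_node, Tsq.mir_mir, h0, app]
  · have h5 : v = Tsq.mirX (TT (Tsq.mirX (u 3))) := by
      rw [← e1, mirX_mirX]
    have h7 := Tsq.TT_mir (Tsq.mirX (u 3))
    rw [mirX_mirX] at h7
    rw [h5, h7]

end R3J

/-! ### JV against R3, S3 -/

/-- **I-JV-R3**; `hx`: if the host `((Z))` lies on the T-cycle of the window, then `T ((Z))` is not a word of the window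
(it could only be the word 0 or 10; only for bare `Z`) -/
theorem Is9.inner_R3 (h : Is9 .nil .nil Z F g) (hz : JVr Z) (h' : TyR3 F' g')
    (hx : ∀ x : OddHC.X k, x.1 = (Z △ .nil) △ .nil → cyc x ∈ F' → TT x ∉ g'.B) :
    ∀ p ∈ g.arcs, ∀ w ∈ innA p, w ∉ g'.B := by
  intro p hp w hw hB
  obtain ⟨R, B, S, w0, i, h1, -, hc, hi, e, hm⟩ := h'.words w hB
  obtain ⟨e1, x, e2, e3⟩ := R3J.core9 hz h h1 hc hi w0 p hp w hw e
  refine hx x e2 ?_ (e3 ▸ hB)
  have e4 : cyc w = cyc x := by rw [e3, cyc_TT]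
  have e5 : cyc w = cyc (H1.wX R B S 0 w0 0) := by
    rw [e]
    rcases e1 with rfl | rfl
    · rfl
    · exact cyc_eq.2 (h1.rsame10 w0).symm
  rw [← e4, e5]
  exact hm

/-- **I-JV-S3** -/
theorem Is9.inner_S3 (h : Is9 .nil .nil Z F g) (hz : JVr Z) (h' : TyS3 F' g')
    (hx : ∀ x : OddHC.X k, x.1 = (Z △ .nil) △ .nil → cyc x ∈ F' → TT x ∉ g'.B) :
    ∀ p ∈ g.arcs, ∀ w ∈ innA p, w ∉ g'.B := by
  intro p hp w hw hB
  obtain ⟨R, B, S, w0, i, h1, hc, hi, -, e, hm⟩ := h'.words w hB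
  obtain ⟨e1, x, e2, e3⟩ := R3J.core9 hz h h1 hc hi w0 p hp w hw e
  refine hx x e2 ?_ (e3 ▸ hB)
  have e4 : cyc w = cyc x := by rw [e3, cyc_TT]
  have e5 : cyc w = cyc (H1.wX R B S 0 w0 0) := by
    rw [e]
    rcases e1 with rfl | rfl
    · rfl
    · exact cyc_eq.2 (h1.rsame10 w0).symm
  rw [← e4, e5]
  exact hm

/-- **I-JV-R3**, JV mirrored -/
theorem Is9M.inner_R3 (h : Is9M .nil .nil Z F g) (hz : JVr (Tsq.mir Z)) (h' : TyR3 F' g')
    (hx : ∀ x : OddHC.X k, (TT x).1 = (Z △ .nil) △ .nil → cyc x ∈ F' → x ∉ g'.B) :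
    ∀ p ∈ g.arcs, ∀ w ∈ innA p, w ∉ g'.B := by
  intro p hp w hw hB
  obtain ⟨R, B, S, w0, i, h1, -, hc, hi, e, hm⟩ := h'.words w hB
  obtain ⟨e1, x, e2, e3⟩ := R3J.core9M hz h h1 hc hi w0 p hp w hw e
  refine hx w (by rw [e3]; exact e2) ?_ hB
  have e5 : cyc w = cyc (H1.wX R B S 0 w0 0) := by
    rw [e]
    rcases e1 with rfl | rfl
    · rfl
    · exact cyc_eq.2 (h1.rsame10 w0).symm
  rw [e5]
  exact hm

/-- **I-JV-S3**, JV mirrored -/
theorem Is9M.inner_S3 (h : Is9M .nil .nil Z F g) (hz : JVr (Tsq.mir Z)) (h' : TyS3 F' g')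
    (hx : ∀ x : OddHC.X k, (TT x).1 = (Z △ .nil) △ .nil → cyc x ∈ F' → x ∉ g'.B) :
    ∀ p ∈ g.arcs, ∀ w ∈ innA p, w ∉ g'.B := by
  intro p hp w hw hB
  obtain ⟨R, B, S, w0, i, h1, hc, hi, -, e, hm⟩ := h'.words w hB
  obtain ⟨e1, x, e2, e3⟩ := R3J.core9M hz h h1 hc hi w0 p hp w hw e
  refine hx w (by rw [e3]; exact e2) ?_ hB
  have e5 : cyc w = cyc (H1.wX R B S 0 w0 0) := by
    rw [e]
    rcases e1 with rfl | rfl
    · rfl
    · exact cyc_eq.2 (h1.rsame10 w0).symm
  rw [e5]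
  exact hm

/-! ### R3, S3 against JV -/

namespace R3J

open H1 SRun

theorem cont_only (h3 : 3 ≤ ht Z) {w : X k} (hin : InnP 3 w.1) (h' : Is9 .nil .nil Z F' g')
    (hw : w ∈ g'.B) : cont w.1 = raise (raise (cont Z)) := by
  rcases hin.only h' hw with e | ⟨v, e, e1⟩
  · exact cont_three e
  · exact cont_six e e1

theorem cont_any (h3 : 3 ≤ ht Z) {w : X k} (hin : InnP 3 w.1) (hin' : InnP 3 (Tsq.mirX w).1)
    (h' : Is9 .nil .nil Z F' g' ∨ Is9M .nil .nil Z F' g') (hw : w ∈ g'.B) :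
    cont w.1 = raise (raise (cont Z)) := by
  rcases h' with h' | h'
  · exact cont_only h3 hin h' hw
  · obtain ⟨u, h2, rfl, rfl⟩ := h'
    obtain ⟨i, hi, e⟩ := mem_gad9M.1 hw
    have h4 : Is9 .nil .nil (Tsq.mir Z) {cyc (Tsq.mirX (u 0)), cyc (Tsq.mirX (u 1))}
        (gad9 (fun i => Tsq.mirX (u i))) := ⟨_, h2.mir, rfl, rfl⟩
    have h5 := cont_only (by rw [HM.ht_mir]; exact h3) hin' h4 (mem_gad9.2 ⟨i, hi, by rw [← e]⟩)
    have h6 : cont (Tsq.mirX w).1 = cont w.1 := HM.cont_mir _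
    rw [← h6, h5, HM.cont_mir]

theorem exF9 (h' : Is9 .nil .nil Z F' g' ∨ Is9M .nil .nil Z F' g') : ∃ d ∈ F', htc d = ht Z := by
  rcases h' with h' | h'
  · exact h'.exF
  · have h2 := h'.htp'
    obtain ⟨u, h1, rfl, rfl⟩ := h'
    exact ⟨_, Or.inl rfl, h2 _ (Or.inl rfl)⟩

theorem coreR (h : HM.NodeM k 0 R B S) (w0 : X k) {i : ℕ} (hi : i ∈ [0, 1, 3, 6, 8, 9])
    (h' : Is9 .nil .nil Z F' g' ∨ Is9M .nil .nil Z F' g') (h1 : (cont Z).count 1 = 0) (h3 : 3 ≤ ht Z)
    (hh : ht R ≤ ht Z) : TT (wX R B S 0 w0 i) ∉ g'.B := by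
  intro hw
  obtain ⟨p1, p2⟩ := h.inn w0 hi
  obtain ⟨c1, c2, c3⟩ := h.winn w0 hi (w := TT (wX R B S 0 w0 i)) (Or.inl rfl)
  have hce := cont_any h3 p1 p2 h' hw
  have htop := h.top
  have hsupS : (cont Z).sup = ht Z := (OddHC.ht_eq Z).symm
  have hsupR : (cont R).sup = ht R := (OddHC.ht_eq R).symm
  rw [c1] at hce
  have hno1 : (cont (W R (ch (0 + 1)) B S i)).count 1 = 0 := by
    rw [hce, count_raise2 (by omega)]
    exact h1
  have hsup : ht (W R (ch (0 + 1)) B S i) = ht Z + 2 := by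
    rw [OddHC.ht_eq, hce, sup_raise, sup_raise, hsupS]
  have h00 : OddHC.ht (BinaryTree.nil : BinaryTree Unit) = 0 := rfl
  have r0 : (raise (cont (BinaryTree.nil : BinaryTree Unit))).count 1 = 1 := by
    rw [cont_nil, raise_zero]; rfl
  have hQ := ch_ht (0 + 1)
  simp only [List.mem_cons, List.not_mem_nil, or_false] at hi
  rcases hi with rfl | rfl | rfl | rfl | rfl | rfl
  · simp only [W, ht_app, ht_node, hQ, h00] at hsup
    omega
  · simp only [W, ht_app, ht_node, hQ, h00] at hsup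
    omega
  · simp only [W, cont_node, cont_nil, add_zero] at hno1
    rw [count_raise_lt (by
      rw [cont_app, Multiset.sup_add, hsupR]
      exact lt_of_lt_of_le (show 1 < ht R by omega) le_sup_left), cont_app, Multiset.count_add,
      cont_node, Multiset.count_add, r0] at hno1
    omega
  · simp only [W, ht_app, ht_node, hQ, h00] at hsup
    omega
  · simp only [W, cont_app, cont_node, Multiset.count_add, r0] at hno1
    omega
  · have hW9 : cont (W R (ch (0 + 1)) B S 9) = raise (raise (cont R)) + {0 + 1} := by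
      simp only [W, cont_node, cont_nil, add_zero, ch_cont]
    rw [hW9, Multiset.count_add] at hno1
    simp at hno1

theorem htR (h : HM.NodeM k 0 R B S) (w0 : X k) : htc (cyc (wX R B S 0 w0 0)) = ht R := by
  have htop := h.top
  have hQ := ch_ht (0 + 1)
  have h00 : OddHC.ht (BinaryTree.nil : BinaryTree Unit) = 0 := rfl
  rw [htc_cyc, wX_eq h.dat h.size w0 (by norm_num)]
  simp only [W, ht_app, ht_node, hQ, h00]
  omega

end R3J

/-- **I-R3-JV**, JV right or mirrored -/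
theorem TyR3.inner_JV (h : TyR3 F g) (h' : Is9 .nil .nil Z F' g' ∨ Is9M .nil .nil Z F' g')
    (h1 : (cont Z).count 1 = 0) (h3 : 3 ≤ ht Z) (hh : ∀ c ∈ F, ∀ d ∈ F', htc c ≤ htc d) :
    ∀ p ∈ g.arcs, ∀ w ∈ innA p, w ∉ g'.B := by
  intro p hp w hw
  obtain ⟨R, B, S, w0, i, n1, hi, rfl, hm⟩ := h.inn0 p hp w hw
  obtain ⟨d, hd, e1⟩ := R3J.exF9 h'
  have h4 := hh _ hm d hd
  rw [e1, R3J.htR n1 w0] at h4
  exact R3J.coreR n1 w0 hi h' h1 h3 h4

/-- **I-S3-JV**, JV right or mirrored -/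
theorem TyS3.inner_JV (h : TyS3 F g) (h' : Is9 .nil .nil Z F' g' ∨ Is9M .nil .nil Z F' g')
    (h1 : (cont Z).count 1 = 0) (h3 : 3 ≤ ht Z) (hh : ∀ c ∈ F, ∀ d ∈ F', htc c ≤ htc d) :
    ∀ p ∈ g.arcs, ∀ w ∈ innA p, w ∉ g'.B := by
  intro p hp w hw
  obtain ⟨R, B, S, w0, i, n1, hi, rfl, hm⟩ := h.inn0 p hp w hw
  obtain ⟨d, hd, e1⟩ := R3J.exF9 h'
  have h4 := hh _ hm d hd
  rw [e1, R3J.htR n1 w0] at h4
  exact R3J.coreR n1 w0 (mem_S3_R3 hi) h' h1 h3 h4

end Pool.OddHC
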